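import Mathlib
import Pool.Agent.NH6.CmplK

/-!
# Bloch–Kato Selmer groups for ordinary representations with complementary filtrations

`q` is a prime number with `q = 7` modulo `16` and `K = ℚ(√-q)`; the number `2` splits in `K`, and
`w`, `w'` are the two places above `2`, given by embeddings `ι₀`, `ι₁` of `ℚ̄`.

Theorem: let `T` be a free `ℤ_2`-module of rank `N` with a continuous action of the absolute Galois
group of `K`, and let `T_w⁺` and `T_w'⁺` be submodules that are stable under the decomposition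
groups of `w` and `w'` and such that `T = T_w⁺ ⊕ T_w'⁺`. Assume that a basis of `T` that is adapted
to this decomposition can be divided into `n` levels such that the group acts trivially on the
successive quotients of the filtration of `T/2T` which they define (if it acts trivially on `T/2T`
then `n = 1`). Let `S` be a set of odd prime numbers such that `T` is unramified outside `2` and
`S`. Let `E` be a normed field that contains `ℚ_2` and `χ` a character with values in `E^*` whose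
values have order a power of `2`, which is unramified outside `2` and such that the decomposition
groups of the places above the elements of `S` contain elements `φ` for which the order of `χ(φ)` is
greater than `2n`. Put `V = T ⊗ E(χ)`. Then a class in `H¹(K, V)` is trivial if it is trivial on the
inertia groups of the places prime to `2` and if its images in `H¹(K_w, V/V_w⁺)` and in
`H¹(K_w', V/V_w'⁺)` are trivial. If `S` is empty, then there is no condition on the order of `χ`.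

For instance, `T` can be the Tate module of an elliptic curve over `K` that is ordinary at `w` and
`w'` and all of whose points of order `2` are defined over `K`, provided the kernels of the
reductions modulo `w` and `w'` contain different points of order `2`.
-/

set_option autoImplicit false

namespace Pool.Agent.Results.MP_787500_nt.ComplementaryFiltrations

open scoped Matrix

/-- An algebraic closure of `ℚ`. -/
abbrev QBar : Type := AlgebraicClosure ℚ

/-- The automorphisms of `ℚ̄`. -/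
abbrev Aut : Type := QBar ≃ₐ[ℚ] QBar

/-- The field `K = ℚ(s)`. It is `ℚ(√-q)` if `s² = -q`. -/
noncomputable def K (s : QBar) : IntermediateField ℚ QBar := IntermediateField.adjoin ℚ {s}

/-- The absolute Galois group of `K`. -/
def Gal (s : QBar) : Type := (K s).fixingSubgroup

noncomputable instance (s : QBar) : Group (Gal s) := Subgroup.toGroup (K s).fixingSubgroup

noncomputable instance (s : QBar) : TopologicalSpace (Gal s) :=
  instTopologicalSpaceSubtype (p := (· ∈ (K s).fixingSubgroup))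

/-- An element of the Galois group of `K` as an automorphism of `ℚ̄`. -/
def aut {s : QBar} (σ : Gal s) : Aut := Subtype.val σ

/-- The decomposition group of the place given by the embedding `ι` of `ℚ̄`. -/
def Dec {p : ℕ} [Fact p.Prime] (ι : QBar →ₐ[ℚ] PadicAlgCl p) : Set Aut :=
  {σ | ∃ τ : PadicAlgCl p ≃ₐ[ℚ_[p]] PadicAlgCl p, ∀ x, τ (ι x) = ι (σ x)}

/-- Its inertia group: the automorphisms which are trivial on the residue field. -/
def Inr {p : ℕ} [Fact p.Prime] (ι : QBar →ₐ[ℚ] PadicAlgCl p) : Set Aut :=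
  {σ | ∃ τ : PadicAlgCl p ≃ₐ[ℚ_[p]] PadicAlgCl p, (∀ x, τ (ι x) = ι (σ x)) ∧
    ∀ z : PadicAlgCl p, ‖z‖ ≤ 1 → ‖τ z - z‖ < 1}

/-- `ρ` is a continuous representation on `T = ℤ_2^N` that is unramified outside `2` and `S`. The
basis is divided into the levels `0, …, n - 1` and `ρ(σ) e_j - e_j` is modulo `2` a combination of
vectors of lower levels. The submodule `T_w⁺` spanned by the `e_i` with `i ∉ J` is stable under the
decomposition group of `ι₀`, and `T_w'⁺` spanned by the `e_i` with `i ∈ J` is stable under the one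
of `ι₁`. -/
structure IsRep {s : QBar} {N : ℕ} (ι₀ ι₁ : QBar →ₐ[ℚ] PadicAlgCl 2) (S : Set ℕ) (n : ℕ)
    (level : Fin N → ℕ) (J : Set (Fin N)) (ρ : Gal s → Matrix (Fin N) (Fin N) ℤ_[2]) : Prop where
  one : ρ 1 = 1
  mul : ∀ σ τ, ρ (σ * τ) = ρ σ * ρ τ
  cont : Continuous ρ
  unr : ∀ (p : ℕ) [Fact p.Prime] (ι : QBar →ₐ[ℚ] PadicAlgCl p), p ≠ 2 → p ∉ S →
    ∀ σ, aut σ ∈ Inr ι → ρ σ = 1
  lt : ∀ i, level i < n
  flag : ∀ σ i j, ¬ level i < level j →
    (2 : ℤ_[2]) ∣ ρ σ i j - (1 : Matrix (Fin N) (Fin N) ℤ_[2]) i j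
  stable₀ : ∀ σ, aut σ ∈ Dec ι₀ → ∀ i ∈ J, ∀ j ∉ J, ρ σ i j = 0
  stable₁ : ∀ σ, aut σ ∈ Dec ι₁ → ∀ i ∉ J, ∀ j ∈ J, ρ σ i j = 0

/-- `χ` is a continuous character, its values are roots of unity whose orders are powers of `2`, and
it is unramified at the places prime to `2`. -/
structure IsTwist {s : QBar} {E : Type} [NormedField E] (χ : Gal s → E) : Prop where
  one : χ 1 = 1
  mul : ∀ σ τ, χ (σ * τ) = χ σ * χ τ
  cont : Continuous χ
  two : ∀ σ, ∃ k : ℕ, χ σ ^ 2 ^ k = 1
  unr : ∀ (p : ℕ) [Fact p.Prime] (ι : QBar →ₐ[ℚ] PadicAlgCl p), p ≠ 2 →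
    ∀ σ, aut σ ∈ Inr ι → χ σ = 1

section

variable {s : QBar} {N : ℕ} {E : Type} [NormedField E] [NormedAlgebra ℚ_[2] E]

/-- The action of `σ` on `V = T ⊗ E(χ)`. -/
noncomputable def act (χ : Gal s → E) (ρ : Gal s → Matrix (Fin N) (Fin N) ℤ_[2])
    (σ : Gal s) (v : Fin N → E) : Fin N → E :=
  χ σ • ((ρ σ).map fun x : ℤ_[2] => algebraMap ℚ_[2] E x) *ᵥ v

/-- The continuous cocycles with values in `V`. -/
structure IsCocycle (χ : Gal s → E) (ρ : Gal s → Matrix (Fin N) (Fin N) ℤ_[2])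
    (c : Gal s → Fin N → E) : Prop where
  cont : Continuous c
  mul : ∀ σ τ, c (σ * τ) = c σ + act χ ρ σ (c τ)

/-- The image of the cocycle `c` in the quotient of `V` by the vectors `e_i` with `i ∉ J` is on `D`
the coboundary of a vector. -/
def TrivialOn (χ : Gal s → E) (ρ : Gal s → Matrix (Fin N) (Fin N) ℤ_[2]) (D : Set Aut)
    (J : Set (Fin N)) (c : Gal s → Fin N → E) : Prop :=
  ∃ y : Fin N → E, ∀ σ, aut σ ∈ D → ∀ i ∈ J, c σ i = (act χ ρ σ y - y) i

/-- The class of the cocycle `c` is trivial on the inertia groups of the places prime to `2`, its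
image in `V/V_w⁺` is trivial on the decomposition group of `w` and its image in `V/V_w'⁺` is trivial
on the decomposition group of `w'`. -/
structure IsSelmer (ι₀ ι₁ : QBar →ₐ[ℚ] PadicAlgCl 2) (χ : Gal s → E)
    (ρ : Gal s → Matrix (Fin N) (Fin N) ℤ_[2]) (J : Set (Fin N)) (c : Gal s → Fin N → E) :
    Prop where
  odd : ∀ (p : ℕ) [Fact p.Prime] (ι : QBar →ₐ[ℚ] PadicAlgCl p), p ≠ 2 →
    TrivialOn χ ρ (Inr ι) Set.univ c
  two₀ : TrivialOn χ ρ (Dec ι₀) J c
  two₁ : TrivialOn χ ρ (Dec ι₁) Jᶜ c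

end

open Pool.Agent.NH6

theorem result (q : ℕ) (hq : q.Prime) (hq7 : q % 16 = 7) (s : QBar) (hs : s ^ 2 = -(q : QBar))
    (ι₀ ι₁ : QBar →ₐ[ℚ] PadicAlgCl 2) (N : ℕ) (S : Set ℕ) (n : ℕ) (level : Fin N → ℕ)
    (J : Set (Fin N)) (ρ : Gal s → Matrix (Fin N) (Fin N) ℤ_[2])
    (hρ : IsRep ι₀ ι₁ S n level J ρ) (E : Type) [NormedField E] [NormedAlgebra ℚ_[2] E]
    (χ : Gal s → E) (hχ : IsTwist χ)
    (hS : ∀ p ∈ S, ∀ [Fact p.Prime] (ι : QBar →ₐ[ℚ] PadicAlgCl p), p ≠ 2 →
      ∃ φ, aut φ ∈ Dec ι ∧ 2 * n < orderOf (χ φ))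
    (c : Gal s → Fin N → E) (hc : IsCocycle χ ρ c) (hsel : IsSelmer ι₀ ι₁ χ ρ J c) :
    ∃ y : Fin N → E, ∀ σ, c σ = act χ ρ σ y - y := by
  classical
  have : Fact q.Prime := ⟨hq⟩
  -- pull everything back
  have hK : ∀ g, res s g ∈ (K s).fixingSubgroup := fun g => res_range' (s := s) ▸ ⟨g, rfl⟩
  let t : Pool.Agent.Y715.Gi.GK s →* Gal s := (res s).codRestrict (K s).fixingSubgroup hK
  have htc : Continuous t := Continuous.subtype_mk res_cont _
  let ρ' : Gal s →* Matrix (Fin N) (Fin N) ℤ_[2] := ⟨⟨ρ, hρ.one⟩, hρ.mul⟩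
  let χ' : Gal s →* Eˣ := (⟨⟨χ, hχ.one⟩, hχ.mul⟩ : Gal s →* E).toHomUnits
  have hχ' : ∀ σ, (χ' σ : E) = χ σ := fun σ => MonoidHom.coe_toHomUnits _ σ
  have hact : ∀ (a : Pool.Agent.Y715.Gi.GK s) (v : Fin N → E), act χ ρ (t a) v =
      ((χ'.comp t) a : E) • mv ((ρ'.comp t) a) v := by
    intro a v
    show _ = (χ' (t a) : E) • _
    rw [hχ']
    rfl
  have hsurj : ∀ σ : Gal s, ∃ a, t a = σ := by
    intro σ
    have h2 : (aut σ) ∈ (res s).range := by
      rw [res_range']
      exact σ.2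
    obtain ⟨a, ha⟩ := h2
    exact ⟨a, Subtype.ext ha⟩
  set κ : Fin N → Bool := fun i => decide (i ∉ J) with hκ
  have hκt : ∀ i, κ i = true ↔ i ∉ J := fun i => by rw [hκ]; exact decide_eq_true_iff
  have hκf : ∀ i, κ i = false ↔ i ∈ J := fun i => by
    rw [hκ]
    show decide (i ∉ J) = false ↔ i ∈ J
    rw [decide_eq_false_iff_not, not_not]
  obtain ⟨y, hy⟩ := cm_main hq7 hs ι₀ ι₁ (ρ'.comp t) (hρ.cont.comp htc) hρ.lt
    (fun σ => hρ.flag (t σ)) κ
    (by
      rintro σ ⟨τ, hτ⟩ i j hi hj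
      exact hρ.stable₀ (t σ) ⟨τ, hτ⟩ i ((hκf i).1 hi) j ((hκt j).1 hj))
    (by
      rintro σ ⟨τ, hτ⟩ i j hi hj
      exact hρ.stable₁ (t σ) ⟨τ, hτ⟩ i ((hκt i).1 hi) j ((hκf j).1 hj))
    (χ'.comp t)
    (by
      show Continuous fun σ => (χ' (t σ) : E)
      simp only [hχ']
      exact hχ.cont.comp htc)
    (fun σ => by
      obtain ⟨k, hk⟩ := hχ.two (t σ)
      refine ⟨k, Units.ext ?_⟩
      show (χ' (t σ) : E) ^ 2 ^ k = 1
      rw [hχ', hk])
    (by
      rintro p _ ι hp2 σ ⟨τ, hin, hτ⟩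
      refine Units.ext ?_
      show (χ' (t σ) : E) = 1
      rw [hχ']
      exact hχ.unr p ι hp2 (t σ) ⟨τ, hτ, hin⟩)
    (by
      intro p _ ι hp2
      by_cases hpS : p ∈ S
      · right
        obtain ⟨φ, hφ, hφo⟩ := hS p hpS ι hp2
        obtain ⟨a, rfl⟩ := hsurj φ
        refine ⟨a, ?_, ?_⟩
        · obtain ⟨τ, hτ⟩ := hφ
          exact ⟨τ, fun x => by rw [hτ]; rfl⟩
        · show _ < orderOf (χ' (t a))
          rw [← orderOf_units, hχ']
          exact hφo
      · left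
        rintro σ ⟨τ, hin, hτ⟩
        exact hρ.unr p ι hp2 hpS (t σ) ⟨τ, hτ, hin⟩)
    (fun a => c (t a)) (hc.cont.comp htc) (fun σ τ => by rw [map_mul, hc.mul, hact])
    (by
      intro p _ ι hp2
      obtain ⟨y, hy⟩ := hsel.odd p ι hp2
      refine ⟨y, ?_⟩
      rintro σ ⟨τ, hin, hτ⟩
      funext i
      rw [hy (t σ) ⟨τ, hτ, hin⟩ i (Set.mem_univ i), hact])
    (by
      obtain ⟨y, hy⟩ := hsel.two₀
      refine ⟨y, ?_⟩
      rintro σ ⟨τ, hτ⟩ i hi
      rw [hy (t σ) ⟨τ, hτ⟩ i ((hκf i).1 hi), hact])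
    (by
      obtain ⟨y, hy⟩ := hsel.two₁
      refine ⟨y, ?_⟩
      rintro σ ⟨τ, hτ⟩ i hi
      rw [hy (t σ) ⟨τ, hτ⟩ i ((hκt i).1 hi), hact])
  refine ⟨y, fun σ => ?_⟩
  obtain ⟨a, rfl⟩ := hsurj σ
  rw [hy a, hact]

end Pool.Agent.Results.MP_787500_nt.ComplementaryFiltrations
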