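import Pool.Agent.NH7.BK.All

/-!
# Selmer groups of residually trivial representations do not grow in infinitely many cyclic extensions
of every number field which contains the `p`-th roots of unity

Let `p` be an odd prime number, `K` a number field which contains a primitive `p`-th root of unity, and
let `(p) = 𝔞 𝔟` in the ring of integers of `K` with coprime ideals `𝔞`, `𝔟` and `N(𝔟) ≤ N(𝔞)`; for
example `𝔟 = (1)`, or `K` contains an imaginary quadratic field in which `p` is the product of two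
primes `𝔭`, `𝔭'` and `𝔞 = 𝔭' O_K`, `𝔟 = 𝔭 O_K`. Let `S` be a finite set of primes of `K` which contains
the primes above `p`.

For a continuous representation `V = ℚ_p ^ N` of the absolute Galois group `G_K` which is unramified
outside `S` and has a stable lattice `ℤ_p ^ N` on which `G_K` acts trivially modulo `p`, and for a
finite extension `L` of `K`, consider the Selmer group of the classes in `H ^ 1 (L, V)` which are zero at
all places above the primes of `S` prime to `𝔟`, unramified outside `S`, and arbitrary at the places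
above the primes dividing `𝔟`.

Theorem: there are infinitely many cyclic extensions `L / K` of degree `p`, with prescribed
completions at finitely many primes, such that for **all** `N` and **all** such representations the
Selmer group of `V` over `L` is the image of the Selmer group of `V` over `K`. (Equivalently: the Selmer
groups over `K` of all the twists of all the representations `V` by the nontrivial characters of
`Gal(L/K)` are zero.)
-/

set_option autoImplicit false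

namespace Pool.Agent.Results.MP_787500_nt.GoingUpResiduallyTrivial

open NumberField IsDedekindDomain
open Pool.Agent.NH7.GU (Hm Qv Qv_max Qv_comap fin_ram Hm.zero)
open Pool.Agent.NH7.Sch (fld_gal fld_fin fld_cyc fld fld_fix kerX mem_kerX)

/-! ### The Galois groups, the decomposition groups and the inertia groups -/

/-- An algebraic closure of the number field `K`. -/
abbrev Bar (K : Type) [Field K] : Type := AlgebraicClosure K

/-- The absolute Galois group of `K`. -/
abbrev Gal (K : Type) [Field K] : Type := Bar K ≃ₐ[K] Bar K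

/-- The absolute Galois group of the field `L` between `K` and its algebraic closure. -/
abbrev GalL {K : Type} [Field K] (L : IntermediateField K (Bar K)) : Type := L.fixingSubgroup

/-- The maximal ideal `Q` of the ring of all algebraic integers lies above the prime `v` of `K`. -/
def Above {K : Type} [Field K] (Q : Ideal (𝓞 (Bar K))) (v : HeightOneSpectrum (𝓞 K)) : Prop :=
  Q.IsMaximal ∧ Q.comap (algebraMap (𝓞 K) (𝓞 (Bar K))) = v.asIdeal

/-- The decomposition group in the absolute Galois group of `L` of the maximal ideal `Q` of the ring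
of all algebraic integers: the `σ` such that `σ Q = Q`. -/
def Dec {K : Type} [Field K] (L : IntermediateField K (Bar K)) (Q : Ideal (𝓞 (Bar K))) :
    Set (GalL L) :=
  {σ | ∀ x : 𝓞 (Bar K), x ∈ Q ↔ (σ : Gal K) • x ∈ Q}

/-- The inertia group: the `σ` such that `σ x` is congruent to `x` modulo `Q` for all `x`. -/
def Inr {K : Type} [Field K] (L : IntermediateField K (Bar K)) (Q : Ideal (𝓞 (Bar K))) :
    Set (GalL L) :=
  {σ | ∀ x : 𝓞 (Bar K), (σ : Gal K) • x - x ∈ Q}

/-- The fields `L` and `L'` have the same completions above the prime `v` of `K`: an element `σ` of a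
decomposition group above `v` (the absolute Galois group of the completion `K_v`) fixes `L` if and only
if it fixes `L'`; that is, `L K_v = L' K_v`. -/
def SameCompletions {K : Type} [Field K] (L L' : IntermediateField K (Bar K))
    (v : HeightOneSpectrum (𝓞 K)) : Prop :=
  ∀ Q : Ideal (𝓞 (Bar K)), Above Q v → ∀ σ : Gal K, (∀ x : 𝓞 (Bar K), x ∈ Q ↔ σ • x ∈ Q) →
    ((∀ x ∈ L, σ x = x) ↔ ∀ x ∈ L', σ x = x)

/-- The prime `v` of `K` splits completely in `L`: all decomposition groups above `v` fix `L`. -/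
def Splits {K : Type} [Field K] (L : IntermediateField K (Bar K))
    (v : HeightOneSpectrum (𝓞 K)) : Prop :=
  ∀ Q : Ideal (𝓞 (Bar K)), Above Q v → ∀ σ : Gal K, (∀ x : 𝓞 (Bar K), x ∈ Q ↔ σ • x ∈ Q) →
    ∀ x ∈ L, σ x = x

/-- The prime `v` of `K` is unramified in `L`: all inertia groups above `v` fix `L`. -/
def IsUnramified {K : Type} [Field K] (L : IntermediateField K (Bar K))
    (v : HeightOneSpectrum (𝓞 K)) : Prop :=
  ∀ Q : Ideal (𝓞 (Bar K)), Above Q v → ∀ σ : Gal K, (∀ x : 𝓞 (Bar K), σ • x - x ∈ Q) →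
    ∀ x ∈ L, σ x = x

/-! ### The representations and their Selmer groups -/

section rep

variable {K : Type} [Field K] {p : ℕ} [Fact p.Prime] {N : ℕ}

/-- `ρ` is a continuous representation of the absolute Galois group of `K` on `ℤ_p ^ N`, trivial modulo
`p` and unramified outside `S`. -/
structure IsRep (S : Set (HeightOneSpectrum (𝓞 K)))
    (ρ : Gal K →* Matrix (Fin N) (Fin N) ℤ_[p]) : Prop where
  cont : Continuous ρ
  congr : ∀ σ i j, (p : ℤ_[p]) ∣ (ρ σ - 1) i j
  unramified : ∀ v ∉ S, ∀ Q : Ideal (𝓞 (Bar K)), Above Q v → ∀ σ : Gal K,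
    (∀ x : 𝓞 (Bar K), σ • x - x ∈ Q) → ρ σ = 1

/-- The action on `V = ℚ_p ^ N`. -/
noncomputable def act (ρ : Gal K →* Matrix (Fin N) (Fin N) ℤ_[p]) (σ : Gal K)
    (x : Fin N → ℚ_[p]) : Fin N → ℚ_[p] :=
  ((ρ σ).map (algebraMap ℤ_[p] ℚ_[p])).mulVec x

variable {L : IntermediateField K (Bar K)}

/-- The continuous cocycles of the absolute Galois group of `L` with values in `V`. -/
structure IsCocycle (ρ : Gal K →* Matrix (Fin N) (Fin N) ℤ_[p]) (c : GalL L → Fin N → ℚ_[p]) :
    Prop where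
  cont : Continuous c
  mul : ∀ σ τ, c (σ * τ) = c σ + act ρ σ (c τ)

/-- The restriction of `c` to the subset `D` is a coboundary with values in `V`. -/
def TrivialOn (ρ : Gal K →* Matrix (Fin N) (Fin N) ℤ_[p]) (D : Set (GalL L))
    (c : GalL L → Fin N → ℚ_[p]) : Prop :=
  ∃ x : Fin N → ℚ_[p], ∀ σ ∈ D, c σ = act ρ σ x - x

/-- The local conditions: the class is zero at the places above the primes of `S` which do not divide
`𝔟`, and unramified at the places above the primes outside `S`. There is no condition above the primes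
dividing `𝔟`. -/
structure InSelmer (S : Set (HeightOneSpectrum (𝓞 K))) (𝔟 : Ideal (𝓞 K))
    (ρ : Gal K →* Matrix (Fin N) (Fin N) ℤ_[p]) (c : GalL L → Fin N → ℚ_[p]) : Prop where
  strict : ∀ v ∈ S, ¬ 𝔟 ≤ v.asIdeal → ∀ Q : Ideal (𝓞 (Bar K)), Above Q v →
    TrivialOn ρ (Dec L Q) c
  outside : ∀ v ∉ S, ∀ Q : Ideal (𝓞 (Bar K)), Above Q v → TrivialOn ρ (Inr L Q) c

/-- The Selmer group of `V` over `L` is the image of the Selmer group of `V` over `K`: every cocycle
`c` in the first one differs by a coboundary from the restriction of a cocycle `c'` in the second one. -/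
def SelmerComesFromBase (S : Set (HeightOneSpectrum (𝓞 K))) (𝔟 : Ideal (𝓞 K))
    (ρ : Gal K →* Matrix (Fin N) (Fin N) ℤ_[p]) (L : IntermediateField K (Bar K)) : Prop :=
  ∀ c : GalL L → Fin N → ℚ_[p], IsCocycle ρ c → InSelmer S 𝔟 ρ c →
    ∃ c' : GalL (⊥ : IntermediateField K (Bar K)) → Fin N → ℚ_[p], IsCocycle ρ c' ∧
      InSelmer S 𝔟 ρ c' ∧ ∃ x : Fin N → ℚ_[p],
        ∀ (σ : GalL L) (τ : GalL (⊥ : IntermediateField K (Bar K))),
          (τ : Gal K) = (σ : Gal K) → c σ = c' τ + (act ρ σ x - x)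

end rep

/-! ### The theorem -/

section proof

open Pool.Agent.NH7.Sch Pool.Agent.NH7.BK

variable {p : ℕ} [hp : Fact p.Prime] {K : Type} [Field K] [NumberField K]

/-- the homomorphism which cuts out `L₀` -/
theorem exists_hm (L₀ : IntermediateField K (Bar K))
    (h₀ : IsGalois K L₀ ∧ Module.finrank K L₀ = p) :
    ∃ χ₀ : Gal K → ZMod p, Hm p χ₀ ∧ ∀ σ : Gal K, χ₀ σ = 0 ↔ ∀ x ∈ L₀, σ x = x := by
  rcases h₀ with ⟨hgal, hdeg⟩
  · have : NeZero p := ⟨hp.out.ne_zero⟩
    have hfd : FiniteDimensional K L₀ := FiniteDimensional.of_finrank_pos (by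
      rw [hdeg]
      exact hp.out.pos)
    have hcard : Nat.card (L₀ ≃ₐ[K] L₀) = p := by
      rw [IsGalois.card_aut_eq_finrank, hdeg]
    have hcyc : IsCyclic (L₀ ≃ₐ[K] L₀) := isCyclic_of_prime_card hcard
    have hcard' : Nat.card (Multiplicative (ZMod p)) = p := by
      rw [Nat.card_congr Multiplicative.toAdd, Nat.card_zmod]
    let e : (L₀ ≃ₐ[K] L₀) ≃* Multiplicative (ZMod p) :=
      mulEquivOfPrimeCardEq (p := p) hcard hcard'
    let r := AlgEquiv.restrictNormalHom (F := K) (K₁ := AlgebraicClosure K) L₀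
    have hr : ∀ σ : Gal K, r σ = 1 ↔ ∀ x ∈ L₀, σ x = x := by
      intro h
      constructor
      · intro h1 x hx
        have h2 := AlgEquiv.restrictNormal_commutes h L₀ ⟨x, hx⟩
        have h3 : h.restrictNormal L₀ = 1 := h1
        rw [h3] at h2
        exact h2.symm
      · intro h1
        ext x
        have h2 := AlgEquiv.restrictNormal_commutes h L₀ x
        exact h2.trans (h1 x x.2)
    have hker : ∀ σ : Gal K, (e (r σ)).toAdd = 0 ↔ ∀ x ∈ L₀, σ x = x := by
      intro σ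
      rw [← hr σ, toAdd_eq_zero, map_eq_one_iff e e.injective]
    have hmul : ∀ g h : Gal K, (e (r (g * h))).toAdd = (e (r g)).toAdd + (e (r h)).toAdd := by
      intro g h
      rw [map_mul, map_mul, toAdd_mul]
    refine ⟨fun σ => (e (r σ)).toAdd, ⟨?_, hmul⟩, hker⟩
    have hopen : IsOpen (L₀.fixingSubgroup : Set (Gal K)) := L₀.fixingSubgroup_isOpen
    refine cont_of_open hmul hopen (one_mem _) fun g hg => ?_
    rw [hker]
    exact (IntermediateField.mem_fixingSubgroup_iff _ _).1 hg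

end proof

open Pool.Agent.NH7.BK in
theorem result {p : ℕ} [Fact p.Prime] (hp2 : p ≠ 2) {K : Type} [Field K] [NumberField K]
    (hz : ∃ z : K, IsPrimitiveRoot z p) {𝔞 𝔟 : Ideal (𝓞 K)}
    (hab : 𝔞 * 𝔟 = Ideal.span {(p : 𝓞 K)}) (hcop : IsCoprime 𝔞 𝔟)
    (hnorm : Ideal.absNorm 𝔟 ≤ Ideal.absNorm 𝔞)
    {S : Set (HeightOneSpectrum (𝓞 K))} (hS : S.Finite)
    (hpS : ∀ v : HeightOneSpectrum (𝓞 K), (p : 𝓞 K) ∈ v.asIdeal → v ∈ S)
    (L₀ : IntermediateField K (Bar K)) (h₀ : IsGalois K L₀ ∧ Module.finrank K L₀ = p)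
    (hsplit : ∀ v ∈ S, ¬ Splits L₀ v)
    (hunr : ∀ v : HeightOneSpectrum (𝓞 K), 𝔟 ≤ v.asIdeal → IsUnramified L₀ v)
    {B : Set (HeightOneSpectrum (𝓞 K))} (hB : B.Finite) :
    {L : IntermediateField K (Bar K) | IsGalois K L ∧ IsCyclic (L ≃ₐ[K] L) ∧
      Module.finrank K L = p ∧ (∀ v ∈ B, SameCompletions L L₀ v) ∧
      ∀ (N : ℕ) (ρ : Gal K →* Matrix (Fin N) (Fin N) ℤ_[p]), IsRep S ρ →
        SelmerComesFromBase S 𝔟 ρ L}.Infinite := by
  classical
  obtain ⟨ζ, hζ⟩ := hz
  obtain ⟨χ₀, h0, hχ₀⟩ := exists_hm L₀ h₀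
  intro hfin
  set F := {L : IntermediateField K (Bar K) | IsGalois K L ∧ IsCyclic (L ≃ₐ[K] L) ∧
      Module.finrank K L = p ∧ (∀ v ∈ B, SameCompletions L L₀ v) ∧
      ∀ (N : ℕ) (ρ : Gal K →* Matrix (Fin N) (Fin N) ℤ_[p]), IsRep S ρ →
        SelmerComesFromBase S 𝔟 ρ L} with hF
  -- the ramified primes of the fields in `F`
  have hram : ∀ L : IntermediateField K (Bar K), ∃ T : Finset (HeightOneSpectrum (𝓞 K)),
      L ∈ F → ∀ v ∉ T, ∀ g ∈ Pool.Agent.NH7.Sch.Inr (Qv v), ∀ x ∈ L, g x = x := by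
    intro L
    by_cases hL : L ∈ F
    · obtain ⟨x, hx, hxL⟩ := exists_hm (p := p) L ⟨hL.1, hL.2.2.1⟩
      obtain ⟨T, hT⟩ := fin_ram hζ hx
      exact ⟨T, fun _ v hv g hg => (hxL g).1 (hT v hv g hg)⟩
    · exact ⟨∅, fun h => absurd h hL⟩
  choose T hT using hram
  let B' : Set (HeightOneSpectrum (𝓞 K)) := B ∪ ⋃ L ∈ F, (T L : Set (HeightOneSpectrum (𝓞 K)))
  have hB' : B'.Finite := hB.union (hfin.biUnion fun L _ => (T L).finite_toSet)
  have hs : ∀ v ∈ S, ∃ g ∈ Pool.Agent.NH7.Sch.Dec (Qv v), χ₀ g ≠ 0 := by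
    intro v hv
    by_contra hne
    push Not at hne
    refine hsplit v hv fun Q hQ σ hσ => (hχ₀ σ).1 ?_
    obtain ⟨τ, hτ⟩ := Pool.Agent.NH7.GU.s_cnj K v Q (Qv v) hQ.1 (Qv_max v) hQ.2 (Qv_comap v)
    have h1 : τ * σ * τ⁻¹ ∈ Pool.Agent.NH7.Sch.Dec (Qv v) := by
      rw [hτ]
      exact (Pool.Agent.NH7.Sch.Dec_mv τ σ).1 hσ
    have h2 := hne _ h1
    rwa [Pool.Agent.NH7.GU.hm_conj h0] at h2
  have hu : ∀ v : HeightOneSpectrum (𝓞 K), 𝔟 ≤ v.asIdeal → Pool.Agent.NH7.GU.Unr v χ₀ :=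
    fun v hv g hg => (hχ₀ g).2 (hunr v hv (Qv v) ⟨Qv_max v, Qv_comap v⟩ g hg)
  obtain ⟨χ, hχc, hm, ⟨σ, hσ⟩, hloc, ⟨v, hv, g, hg, hg0⟩, hmain⟩ :=
    main_sel hp2 hζ Pool.Agent.NH7.GU.s_cnj Pool.Agent.NH7.GU.t_frv s_cls t_loop s_cup t_cmp s_int hS hpS hB' 𝔞 𝔟 hab hcop hnorm h0 hs hu
  have hgal := fld_gal hχc hm
  have hfd := fld_fin hχc hm
  obtain ⟨hcyc, hcard⟩ := fld_cyc hχc hm hσ
  have hfix : (fld hm).fixingSubgroup = kerX hm := fld_fix hχc hm
  have hmem : ∀ g : Gal K, χ g = 0 ↔ ∀ x ∈ fld hm, g x = x := by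
    intro g
    rw [← IntermediateField.mem_fixingSubgroup_iff, hfix, mem_kerX]
  have hk : ∀ x : kerX hm, (x : Gal K) ∈ (fld hm).fixingSubgroup := fun x => by
    rw [hfix]
    exact x.2
  have hL : fld hm ∈ F := by
    refine ⟨hgal, ⟨_, hcyc⟩, ?_, fun w hw Q hQ s hs => ?_, fun N ρ hρ => ?_⟩
    · rw [← IsGalois.card_aut_eq_finrank, hcard]
    · rw [← hmem, ← hχ₀, hloc w (Or.inl hw) Q hQ.1 hQ.2 s hs]
    · intro c hc hsel
      have hR : RepK S ρ := ⟨hρ.cont, hρ.congr, fun v hv Q hQ hQv g hg =>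
        hρ.unramified v hv Q ⟨hQ, hQv⟩ g hg⟩
      have h1 : SelQ S 𝔟 ρ (kerX hm) fun x => c ⟨x, hk x⟩ := by
        refine ⟨hc.cont.comp (Continuous.subtype_mk continuous_subtype_val _),
          fun s t => hc.mul ⟨s, hk s⟩ ⟨t, hk t⟩, fun v hv Q hQ hQv => ?_,
          fun v hv hvb Q hQ hQv => ?_⟩
        · obtain ⟨x, hx⟩ := hsel.outside v hv Q ⟨hQ, hQv⟩
          exact ⟨x, fun s hs' => hx _ hs'⟩
        · obtain ⟨x, hx⟩ := hsel.strict v hv hvb Q ⟨hQ, hQv⟩
          exact ⟨x, fun s hs' => hx _ hs'⟩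
      obtain ⟨c', hc', x, hx⟩ := hmain N ρ hR _ h1
      refine ⟨fun x => c' ⟨x, Subgroup.mem_top _⟩, ⟨hc'.cont.comp
          (Continuous.subtype_mk continuous_subtype_val _),
          fun s t => hc'.mul ⟨s, Subgroup.mem_top _⟩ ⟨t, Subgroup.mem_top _⟩⟩,
        ⟨fun v hv hvb Q hQ => ?_, fun v hv Q hQ => ?_⟩, x,
        fun s t hst => hx ⟨s, by rw [← hfix]; exact s.2⟩ ⟨t, Subgroup.mem_top _⟩ hst⟩
      · obtain ⟨y, hy⟩ := hc'.strict v hv hvb Q hQ.1 hQ.2
        exact ⟨y, fun s hs' => hy _ hs'⟩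
      · obtain ⟨y, hy⟩ := hc'.away v hv Q hQ.1 hQ.2
        exact ⟨y, fun s hs' => hy _ hs'⟩
  refine hg0 ((hmem g).2 (hT _ hL v (fun h => hv (Or.inr ?_)) g hg))
  exact Set.mem_biUnion hL h

end Pool.Agent.Results.MP_787500_nt.GoingUpResiduallyTrivial
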