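import Mathlib
import Pool.Agent.NH6.QM

/-!
# Bloch–Kato Selmer groups of cyclotomic twists of ordinary representations of `Gal(ℚ̄/ℚ)`

Theorem: let `T` be a free `ℤ_2`-module of rank `N` with a continuous action of `Gal(ℚ̄/ℚ)` that is
unramified outside `2` and a set `S` of odd prime numbers, and let `T⁺` be a direct summand of `T`
that is stable under the inertia group at `2`. Let `c` be a complex conjugation, and assume that
`T⁺/2T⁺` and the image of `{v ∈ T, c v = -v}` in `T/2T` are contained in complementary subspaces of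
`T/2T`, such that a basis of `T` that is adapted to this decomposition can be divided into `n`
levels for which `Gal(ℚ̄/ℚ)` acts trivially on the successive quotients of the filtration of `T/2T`
which they define (if `Gal(ℚ̄/ℚ)` acts trivially on `T/2T` then `n = 1`).

Let `E` be a normed field that contains `ℚ_2` and let `χ` be a character with values in `E^*`, of
order a power of `2`, trivial on `c` and unramified outside `2`, that is, a character of finite
order of the Galois group of the cyclotomic `ℤ_2`-extension of `ℚ`. Assume that the order of `χ`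
and, for the elements `p` of `S`, the order of the restriction of `χ` to the decomposition group of
`p` are greater than `2n`; this excludes finitely many `χ` if `S` is finite. Put `V = T ⊗ E(χ)`.
Then a class in `H¹(ℚ, V)` is trivial if it is trivial on the inertia groups at the odd prime
numbers and if its image in `V/V⁺` is trivial on the inertia group at `2`.
-/

set_option autoImplicit false

namespace Pool.Agent.Results.MP_787500_nt.OrdinaryOverQ

open scoped Matrix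

/-- An algebraic closure of `ℚ`. -/
abbrev QBar : Type := AlgebraicClosure ℚ

/-- The absolute Galois group of `ℚ`. -/
abbrev Gal : Type := QBar ≃ₐ[ℚ] QBar

/-- The decomposition group of the place given by the embedding `ι` of `ℚ̄`. -/
def Dec {p : ℕ} [Fact p.Prime] (ι : QBar →ₐ[ℚ] PadicAlgCl p) : Set Gal :=
  {σ | ∃ τ : PadicAlgCl p ≃ₐ[ℚ_[p]] PadicAlgCl p, ∀ x, τ (ι x) = ι (σ x)}

/-- Its inertia group: the automorphisms which are trivial on the residue field. -/
def Inr {p : ℕ} [Fact p.Prime] (ι : QBar →ₐ[ℚ] PadicAlgCl p) : Set Gal :=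
  {σ | ∃ τ : PadicAlgCl p ≃ₐ[ℚ_[p]] PadicAlgCl p, (∀ x, τ (ι x) = ι (σ x)) ∧
    ∀ z : PadicAlgCl p, ‖z‖ ≤ 1 → ‖τ z - z‖ < 1}

/-- `ρ` is a continuous representation on `T = ℤ_2^N` that is unramified outside `2` and `S`. The
basis is divided into the levels `0, …, n - 1` and `ρ(σ) e_j - e_j` is modulo `2` a combination of
vectors of lower levels. The submodule `T⁺` spanned by the `e_i` with `i ∉ J` is stable under the
inertia group of `ι₀`. The vectors on which the complex conjugation `cc` is multiplication by `-1`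
are modulo `2` combinations of the `e_i` with `i ∈ J`. -/
structure IsRep {N : ℕ} (ι₀ : QBar →ₐ[ℚ] PadicAlgCl 2) (cc : Gal) (S : Set ℕ) (n : ℕ)
    (level : Fin N → ℕ) (J : Set (Fin N)) (ρ : Gal → Matrix (Fin N) (Fin N) ℤ_[2]) : Prop where
  one : ρ 1 = 1
  mul : ∀ σ τ, ρ (σ * τ) = ρ σ * ρ τ
  cont : Continuous ρ
  unr : ∀ (p : ℕ) [Fact p.Prime] (ι : QBar →ₐ[ℚ] PadicAlgCl p), p ≠ 2 → p ∉ S →
    ∀ σ ∈ Inr ι, ρ σ = 1
  lt : ∀ i, level i < n
  flag : ∀ σ i j, ¬ level i < level j →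
    (2 : ℤ_[2]) ∣ ρ σ i j - (1 : Matrix (Fin N) (Fin N) ℤ_[2]) i j
  stable : ∀ σ ∈ Inr ι₀, ∀ i ∈ J, ∀ j ∉ J, ρ σ i j = 0
  real : ∀ v : Fin N → ℤ_[2], ρ cc *ᵥ v = -v → ∀ i ∉ J, (2 : ℤ_[2]) ∣ v i

/-- `χ` is a continuous character, its values are roots of unity whose orders are powers of `2`, it
is unramified at the odd prime numbers and trivial on the complex conjugation `cc`. -/
structure IsTwist {E : Type} [NormedField E] (cc : Gal) (χ : Gal → E) : Prop where
  one : χ 1 = 1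
  mul : ∀ σ τ, χ (σ * τ) = χ σ * χ τ
  cont : Continuous χ
  two : ∀ σ, ∃ k : ℕ, χ σ ^ 2 ^ k = 1
  unr : ∀ (p : ℕ) [Fact p.Prime] (ι : QBar →ₐ[ℚ] PadicAlgCl p), p ≠ 2 → ∀ σ ∈ Inr ι, χ σ = 1
  real : χ cc = 1

section

variable {N : ℕ} {E : Type} [NormedField E] [NormedAlgebra ℚ_[2] E]

/-- The action of `σ` on `V = T ⊗ E(χ)`. -/
noncomputable def act (χ : Gal → E) (ρ : Gal → Matrix (Fin N) (Fin N) ℤ_[2])
    (σ : Gal) (v : Fin N → E) : Fin N → E :=
  χ σ • ((ρ σ).map fun x : ℤ_[2] => algebraMap ℚ_[2] E x) *ᵥ v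

/-- The continuous cocycles with values in `V`. -/
structure IsCocycle (χ : Gal → E) (ρ : Gal → Matrix (Fin N) (Fin N) ℤ_[2])
    (c : Gal → Fin N → E) : Prop where
  cont : Continuous c
  mul : ∀ σ τ, c (σ * τ) = c σ + act χ ρ σ (c τ)

/-- The image of the cocycle `c` in the quotient of `V` by the vectors `e_i` with `i ∉ J` is on `D`
the coboundary of a vector. -/
def TrivialOn (χ : Gal → E) (ρ : Gal → Matrix (Fin N) (Fin N) ℤ_[2]) (D : Set Gal)
    (J : Set (Fin N)) (c : Gal → Fin N → E) : Prop :=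
  ∃ y : Fin N → E, ∀ σ ∈ D, ∀ i ∈ J, c σ i = (act χ ρ σ y - y) i

/-- The class of the cocycle `c` is trivial on the inertia groups at the odd prime numbers, and its
image in `V/V⁺` is trivial on the inertia group at `2`. -/
structure IsSelmer (ι₀ : QBar →ₐ[ℚ] PadicAlgCl 2) (χ : Gal → E)
    (ρ : Gal → Matrix (Fin N) (Fin N) ℤ_[2]) (J : Set (Fin N)) (c : Gal → Fin N → E) : Prop where
  odd : ∀ (p : ℕ) [Fact p.Prime] (ι : QBar →ₐ[ℚ] PadicAlgCl p), p ≠ 2 →
    TrivialOn χ ρ (Inr ι) Set.univ c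
  two : TrivialOn χ ρ (Inr ι₀) J c

end

open Pool.Agent.NH6

theorem result (ι₀ : QBar →ₐ[ℚ] PadicAlgCl 2) (j : QBar →+* ℂ) (cc : Gal)
    (hcc : ∀ x, j (cc x) = starRingEnd ℂ (j x)) (N : ℕ) (S : Set ℕ) (n : ℕ) (level : Fin N → ℕ)
    (J : Set (Fin N)) (ρ : Gal → Matrix (Fin N) (Fin N) ℤ_[2]) (hρ : IsRep ι₀ cc S n level J ρ)
    (E : Type) [NormedField E] [NormedAlgebra ℚ_[2] E] (χ : Gal → E) (hχ : IsTwist cc χ)
    (hlarge : ∃ σ, 2 * n < orderOf (χ σ))
    (hS : ∀ p ∈ S, ∀ [Fact p.Prime] (ι : QBar →ₐ[ℚ] PadicAlgCl p), p ≠ 2 →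
      ∃ φ ∈ Dec ι, 2 * n < orderOf (χ φ))
    (c : Gal → Fin N → E) (hc : IsCocycle χ ρ c) (hsel : IsSelmer ι₀ χ ρ J c) :
    ∃ y : Fin N → E, ∀ σ, c σ = act χ ρ σ y - y := by
  classical
  -- pull everything back
  let t : Pool.Agent.Y715.Gi.GK (1 : QBar) →* Gal := res 1
  have htc : Continuous t := res_cont
  let ρ' : Gal →* Matrix (Fin N) (Fin N) ℤ_[2] := ⟨⟨ρ, hρ.one⟩, hρ.mul⟩
  let χ' : Gal →* Eˣ := (⟨⟨χ, hχ.one⟩, hχ.mul⟩ : Gal →* E).toHomUnits
  have hχ' : ∀ σ, (χ' σ : E) = χ σ := fun σ => MonoidHom.coe_toHomUnits _ σ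
  have hact : ∀ (a : Pool.Agent.Y715.Gi.GK (1 : QBar)) (v : Fin N → E), act χ ρ (t a) v =
      ((χ'.comp t) a : E) • mv ((ρ'.comp t) a) v := by
    intro a v
    show _ = (χ' (t a) : E) • _
    rw [hχ']
    rfl
  have hsurj : ∀ σ : Gal, ∃ a, t a = σ := fun σ => exists_res (s := 1) (map_one σ)
  set κ : Fin N → Bool := fun i => decide (i ∉ J) with hκ
  have hκt : ∀ i, κ i = true ↔ i ∉ J := fun i => by rw [hκ]; exact decide_eq_true_iff
  have hκf : ∀ i, κ i = false ↔ i ∈ J := fun i => by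
    rw [hκ]
    show decide (i ∉ J) = false ↔ i ∈ J
    rw [decide_eq_false_iff_not, not_not]
  obtain ⟨c₀, hc₀⟩ := hsurj cc
  obtain ⟨y, hy⟩ := q_main ι₀ (j := j) (cc := c₀) (fun x => by rw [← hcc, ← hc₀]; rfl)
    (ρ'.comp t) (hρ.cont.comp htc) hρ.lt (fun σ => hρ.flag (t σ)) κ
    (by
      rintro σ ⟨τ, hin, hτ⟩ i j hi hj
      exact hρ.stable (t σ) ⟨τ, hτ, hin⟩ i ((hκf i).1 hi) j ((hκt j).1 hj))
    (by
      intro v hv i hi
      have h1 : ρ cc *ᵥ v = -v := by rw [← hc₀]; exact hv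
      exact hρ.real v h1 i ((hκt i).1 hi))
    (χ'.comp t)
    (by
      show Continuous fun σ => (χ' (t σ) : E)
      simp only [hχ']
      exact hχ.cont.comp htc)
    (fun σ => by
      obtain ⟨k, hk⟩ := hχ.two (t σ)
      refine ⟨k, Units.ext ?_⟩
      show (χ' (t σ) : E) ^ 2 ^ k = 1
      rw [hχ', hk])
    (by
      rintro p _ ι hp2 σ ⟨τ, hin, hτ⟩
      refine Units.ext ?_
      show (χ' (t σ) : E) = 1
      rw [hχ']
      exact hχ.unr p ι hp2 (t σ) ⟨τ, hτ, hin⟩)
    (by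
      refine Units.ext ?_
      show (χ' (t c₀) : E) = 1
      rw [hχ', hc₀]
      exact hχ.real)
    (by
      obtain ⟨σ, hσ⟩ := hlarge
      obtain ⟨a, rfl⟩ := hsurj σ
      refine ⟨a, ?_⟩
      show _ < orderOf (χ' (t a))
      rw [← orderOf_units, hχ']
      exact hσ)
    (by
      intro p _ ι hp2
      by_cases hpS : p ∈ S
      · right
        obtain ⟨φ, hφ, hφo⟩ := hS p hpS ι hp2
        obtain ⟨a, rfl⟩ := hsurj φ
        refine ⟨a, ?_, ?_⟩
        · obtain ⟨τ, hτ⟩ := hφ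
          exact ⟨τ, fun x => by rw [hτ]; rfl⟩
        · show _ < orderOf (χ' (t a))
          rw [← orderOf_units, hχ']
          exact hφo
      · left
        rintro σ ⟨τ, hin, hτ⟩
        exact hρ.unr p ι hp2 hpS (t σ) ⟨τ, hτ, hin⟩)
    (fun a => c (t a)) (hc.cont.comp htc) (fun σ τ => by rw [map_mul, hc.mul, hact])
    (by
      intro p _ ι hp2
      obtain ⟨y, hy⟩ := hsel.odd p ι hp2
      refine ⟨y, ?_⟩
      rintro σ ⟨τ, hin, hτ⟩
      funext i
      rw [hy (t σ) ⟨τ, hτ, hin⟩ i (Set.mem_univ i), hact])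
    (by
      obtain ⟨y, hy⟩ := hsel.two
      refine ⟨y, ?_⟩
      rintro σ ⟨τ, hin, hτ⟩ i hi
      rw [hy (t σ) ⟨τ, hτ, hin⟩ i ((hκf i).1 hi), hact])
  refine ⟨y, fun σ => ?_⟩
  obtain ⟨a, rfl⟩ := hsurj σ
  rw [hy a, hact]

end Pool.Agent.Results.MP_787500_nt.OrdinaryOverQ
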